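import Pool.Agent.Helper35.MS.StD

/-!
# Project MS (MP_925021_gt), module MPT: the pinching is preserved
-/

set_option autoImplicit false

namespace Helper38.MS

open Helper35.MS Helper35.PI Helper35.PI2 Helper32.CL
open scoped ContDiff Manifold Topology ENNReal BigOperators
open MeasureTheory Set Filter

theorem hMPT (hMPX : StMPX) : StMPT := by
  intro N M _ _ _ _ T F hT hT4 hF hsph ε hε hε1 hcont hinit q t ht
  by_contra hneg
  push Not at hneg
  -- the compact set of bad points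
  have hsub : (univ ×ˢ Icc 0 t : Set (M × ℝ)) ⊆ univ ×ˢ Ico 0 T := by
    intro z hz
    exact ⟨hz.1, hz.2.1, lt_of_le_of_lt hz.2.2 ht.2⟩
  have hc1 : ContinuousOn (fun z : M × ℝ => PhF ε F z.1 z.2) (univ ×ˢ Icc 0 t) := hcont.mono hsub
  have hcl : IsClosed ((univ ×ˢ Icc 0 t : Set (M × ℝ)) ∩
      (fun z : M × ℝ => PhF ε F z.1 z.2) ⁻¹' (Ici 0)) :=
    hc1.preimage_isClosed_of_isClosed (isClosed_univ.prod isClosed_Icc) isClosed_Ici
  have hcp : IsCompact ((univ ×ˢ Icc 0 t : Set (M × ℝ)) ∩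
      (fun z : M × ℝ => PhF ε F z.1 z.2) ⁻¹' (Ici 0)) :=
    (isCompact_univ.prod isCompact_Icc).of_isClosed_subset hcl inter_subset_left
  obtain ⟨z₀, hz₀, hmin⟩ := hcp.exists_isMinOn ⟨(q, t), ⟨⟨mem_univ _, ht.1, le_rfl⟩, hneg⟩⟩
    (continuous_snd.continuousOn)
  obtain ⟨p₀, t₀⟩ := z₀
  obtain ⟨⟨_, h0t, htt⟩, hge⟩ := hz₀
  simp only [mem_preimage, mem_Ici] at hge
  simp only at h0t htt
  -- before `t₀` the function is negative
  have hbef : ∀ (p : M) (s : ℝ), 0 ≤ s → s < t₀ → PhF ε F p s < 0 := by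
    intro p s hs hst
    by_contra hc
    push Not at hc
    have := hmin (show (p, s) ∈ _ from ⟨⟨mem_univ _, hs, by linarith⟩, hc⟩)
    simp only [mem_ofPred_eq] at this
    linarith
  have ht0 : 0 < t₀ := by
    rcases h0t.eq_or_lt with h | h
    · rw [← h] at hge
      exact absurd hge (not_le.2 (hinit p₀))
    · exact h
  have ht0T : t₀ < T := lt_of_le_of_lt htt ht.2
  -- at `t₀` it is nonpositive
  have hat : ∀ p : M, PhF ε F p t₀ ≤ 0 := by
    intro p
    have hcw : ContinuousWithinAt (fun z : M × ℝ => PhF ε F z.1 z.2) (univ ×ˢ Ico 0 T) (p, t₀) :=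
      hcont (p, t₀) ⟨mem_univ _, h0t, ht0T⟩
    have hmap : Tendsto (fun s : ℝ => (p, s)) (𝓝[<] t₀) (𝓝[univ ×ˢ Ico 0 T] (p, t₀)) := by
      apply tendsto_nhdsWithin_iff.2
      refine ⟨?_, ?_⟩
      · exact (Continuous.prodMk_right p).tendsto t₀ |>.mono_left nhdsWithin_le_nhds
      · have h1 : ∀ᶠ s in 𝓝[<] t₀, 0 < s := nhdsWithin_le_nhds (lt_mem_nhds ht0)
        filter_upwards [h1, self_mem_nhdsWithin] with s hs hs'
        exact ⟨mem_univ _, hs.le, lt_trans hs' ht0T⟩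
    have hlim := hcw.tendsto.comp hmap
    apply le_of_tendsto hlim
    have h1 : ∀ᶠ s in 𝓝[<] t₀, 0 < s := nhdsWithin_le_nhds (lt_mem_nhds ht0)
    filter_upwards [h1, self_mem_nhdsWithin] with s hs hs'
    exact (hbef p s hs.le hs').le
  have heq : PhF ε F p₀ t₀ = 0 := le_antisymm (hat p₀) hge
  refine hMPX N M (Ioo 0 T) F hF hsph ε p₀ hε hε1 t₀ ⟨ht0, ht0T⟩ (by linarith) heq ?_
  have h1 : ∀ᶠ z : M × ℝ in 𝓝 (p₀, t₀), 0 < z.2 :=
    (continuous_snd.tendsto (p₀, t₀)).eventually (lt_mem_nhds ht0)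
  filter_upwards [h1] with z hz hz'
  rcases hz'.lt_or_eq with h | h
  · exact (hbef z.1 z.2 hz.le h).le
  · rw [h]
    exact hat z.1

end Helper38.MS
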