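import Pool.Agent.Helper35.MS.StK

/-!
# Project MS (MP_925021_gt), module MVW: decay of the shrinker quantity
-/

set_option autoImplicit false

namespace Helper38.MS

open Helper35.MS Helper35.PI Helper35.PI2 Helper32.CL
open scoped ContDiff Manifold Topology ENNReal BigOperators
open MeasureTheory Set Filter

/-- continuity at one time -/
private theorem cstj_cont {M V : Type} [TopologicalSpace M] [TopologicalSpace V] {J : Set ℝ}
    {g : M → ℝ → V} (hg : CSTJ J g) {t : ℝ} (ht : t ∈ J) : Continuous (fun q => g q t) := by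
  have h1 : ContinuousOn (fun z : M × ℝ => g z.1 z.2) (univ ×ˢ J) := hg
  exact h1.comp_continuous (f := fun q : M => (q, t)) (by fun_prop) (fun q => ⟨mem_univ _, ht⟩)

/-- the numerical bound -/
private theorem num_bd (W A e τ ρ : ℝ) (hτ : 0 < τ) (hρ0 : 0 ≤ ρ) (hρ1 : ρ ≤ 1)
    (h1 : 16 * Real.pi * τ ≤ A) (h2 : A ≤ W * τ) (h3 : W = 16 * Real.pi + e) (h4 : e ≤ ρ) :
    W - 2 * A / τ + A * (Real.sqrt τ * (2 + ρ)) ^ 2 / (4 * τ ^ 2) ≤ 70 * ρ := by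
  obtain ⟨B, hB⟩ : ∃ B, B = A / τ := ⟨_, rfl⟩
  have hAB : A = B * τ := by rw [hB]; field_simp
  have hB1 : 16 * Real.pi ≤ B := by
    rw [hAB] at h1
    exact le_of_mul_le_mul_right h1 hτ
  have hB2 : B ≤ W := by
    rw [hAB] at h2
    exact le_of_mul_le_mul_right h2 hτ
  have e1 : 2 * A / τ = 2 * B := by rw [hB]; ring
  have e2 : A * (Real.sqrt τ * (2 + ρ)) ^ 2 / (4 * τ ^ 2) = B * (2 + ρ) ^ 2 / 4 := by
    rw [mul_pow, Real.sq_sqrt hτ.le, hAB]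
    field_simp
  rw [e1, e2]
  have hpi := Real.pi_lt_d2
  have hpi3 := Real.pi_gt_three
  have hB3 : B ≤ 52 := by linarith
  have e3 : W - 2 * B + B * (2 + ρ) ^ 2 / 4 = (W - B) + B * (ρ + ρ ^ 2 / 4) := by ring
  rw [e3]
  have e4 : ρ ^ 2 ≤ ρ := by nlinarith
  have e5 : B * (ρ + ρ ^ 2 / 4) ≤ 52 * (ρ + ρ / 4) :=
    mul_le_mul hB3 (by linarith) (by positivity) (by norm_num)
  linarith

/-- the expansion of the square -/
private theorem uF_eq {N : ℕ} {M : Type} [TopologicalSpace M] [ChartedSpace (EE 2) M] (T : ℝ)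
    (F : M → ℝ → EE N) (q : M) (t : ℝ) :
    uF T F q t = YF F q t + (1 / (T - t)) * (inner ℝ (HH (n := 2) F q t) (F q t) : ℝ)
      + 1 / (4 * (T - t) ^ 2) * ‖F q t‖ ^ 2 := by
  unfold uF YF
  obtain ⟨τ, hτ⟩ : ∃ τ, τ = T - t := ⟨_, rfl⟩
  rw [← hτ, norm_add_sq_real, inner_smul_right, norm_smul, mul_pow, Real.norm_eq_abs, sq_abs]
  ring

/-- the integral of the shrinker quantity -/
private theorem int_u (hPRJ : StPRJ) (hFVJ : StFVJ) (hMUJ : StMUJ) (hI4J : StI4J) {N : ℕ} {M : Type}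
    [TopologicalSpace M] [T2Space M] [CompactSpace M] [MeasurableSpace M] [BorelSpace M]
    [ChartedSpace (EE 2) M] [IsManifold (𝓡 2) ∞ M] (T : ℝ) (F : M → ℝ → EE N) (c : ℕ → M)
    (χ : ℕ → M → ℝ) (hsu : SetupF 2 (Ioo 0 T) F c χ) (t : ℝ) (ht : t ∈ Ioo 0 T) (R : ℝ)
    (hR : ∀ q, ‖F q t‖ ≤ R) :
    Integrable (fun q => uF T F q t) (muM 2 F c χ t) ∧
    ∫ q, uF T F q t ∂muM 2 F c χ t
      ≤ wI F c χ t - 2 * arI F c χ t / (T - t) + arI F c χ t * R ^ 2 / (4 * (T - t) ^ 2) := by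
  have hsj := hsu.toJ
  have hτ : 0 < T - t := sub_pos.2 ht.2
  obtain ⟨s, _, hMU⟩ := hMUJ 2 N M (Ioo 0 T) F c χ hsj
  obtain ⟨hfin, _, hMU'⟩ := hMU t ht
  obtain ⟨hcF, hcH, _, _⟩ := hI4J 2 N M (Ioo 0 T) F hsj.mcf
  have hF1 : Continuous (fun q => F q t) := cstj_cont hcF ht
  have hH1 : Continuous (fun q => HH (n := 2) F q t) := cstj_cont hcH ht
  have hfm : IsFiniteMeasure (muM 2 F c χ t) := ⟨hfin⟩
  have i1 : Integrable (fun q => YF F q t) (muM 2 F c χ t) :=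
    (hMU' _ (by unfold YF; exact hH1.norm.pow 2)).1
  have i2 : Integrable (fun q => (inner ℝ (HH (n := 2) F q t) (F q t) : ℝ)) (muM 2 F c χ t) :=
    (hMU' _ (hH1.inner hF1)).1
  have i3 : Integrable (fun q => ‖F q t‖ ^ 2) (muM 2 F c χ t) := (hMU' _ (hF1.norm.pow 2)).1
  have hfun : (fun q => uF T F q t) = fun q => YF F q t
      + (1 / (T - t)) * (inner ℝ (HH (n := 2) F q t) (F q t) : ℝ)
      + 1 / (4 * (T - t) ^ 2) * ‖F q t‖ ^ 2 := by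
    funext q
    exact uF_eq T F q t
  rw [hfun]
  refine ⟨(i1.add (i2.const_mul _)).add (i3.const_mul _), ?_⟩
  have s1 : ∫ q, (YF F q t + (1 / (T - t)) * (inner ℝ (HH (n := 2) F q t) (F q t) : ℝ)
      + 1 / (4 * (T - t) ^ 2) * ‖F q t‖ ^ 2) ∂muM 2 F c χ t
      = wI F c χ t + (1 / (T - t)) * (∫ q, (inner ℝ (HH (n := 2) F q t) (F q t) : ℝ) ∂muM 2 F c χ t)
        + 1 / (4 * (T - t) ^ 2) * ∫ q, ‖F q t‖ ^ 2 ∂muM 2 F c χ t := by
    have i5 : Integrable (fun q => (1 / (T - t)) * (inner ℝ (HH (n := 2) F q t) (F q t) : ℝ))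
        (muM 2 F c χ t) := i2.const_mul _
    have i6 : Integrable (fun q => 1 / (4 * (T - t) ^ 2) * ‖F q t‖ ^ 2) (muM 2 F c χ t) :=
      i3.const_mul _
    have i4 : Integrable (fun q => YF F q t
        + (1 / (T - t)) * (inner ℝ (HH (n := 2) F q t) (F q t) : ℝ)) (muM 2 F c χ t) := i1.add i5
    rw [integral_add i4 i6, integral_add i1 i5, integral_const_mul, integral_const_mul]
    rfl
  -- the first variation
  have s2 : ∫ q, (inner ℝ (HH (n := 2) F q t) (F q t) : ℝ) ∂muM 2 F c χ t = -2 * arI F c χ t := by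
    obtain ⟨_, _, _, _, h5⟩ := hPRJ 2 N M (Ioo 0 T) F hsj.mcf t ht
    obtain ⟨r, _, _, h6⟩ := h5 0
    obtain ⟨h7, _, _, h8⟩ := h6 (fun _ => 1) contDiff_const
    simp only [sub_zero, one_smul, deriv_const', mul_zero, zero_mul, add_zero, mul_one] at h7 h8
    obtain ⟨_, h9⟩ := hFVJ 2 N M (Ioo 0 T) F c χ hsj t ht (fun q => F q t) h7
    have h10 : ∫ q, (2 + (inner ℝ (HH (n := 2) F q t) (F q t) : ℝ)) ∂muM 2 F c χ t = 0 := by
      rw [← h9]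
      refine integral_congr_ae (Eventually.of_forall fun q => ?_)
      have := h8 q
      simp only [this]
      norm_num
    rw [integral_add (integrable_const _) i2, integral_const, smul_eq_mul] at h10
    unfold arI
    linarith
  have s3 : ∫ q, ‖F q t‖ ^ 2 ∂muM 2 F c χ t ≤ arI F c χ t * R ^ 2 := by
    have : ∫ q, ‖F q t‖ ^ 2 ∂muM 2 F c χ t ≤ ∫ _, R ^ 2 ∂muM 2 F c χ t := by
      refine integral_mono i3 (integrable_const _) fun q => ?_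
      exact pow_le_pow_left₀ (norm_nonneg _) (hR q) 2
    rw [integral_const, smul_eq_mul] at this
    exact this
  rw [s1, s2]
  have s4 : 1 / (4 * (T - t) ^ 2) * ∫ q, ‖F q t‖ ^ 2 ∂muM 2 F c χ t
      ≤ 1 / (4 * (T - t) ^ 2) * (arI F c χ t * R ^ 2) :=
    mul_le_mul_of_nonneg_left s3 (by positivity)
  have s5 : 1 / (4 * (T - t) ^ 2) * (arI F c χ t * R ^ 2)
      = arI F c χ t * R ^ 2 / (4 * (T - t) ^ 2) := by ring
  have s6 : (1 / (T - t)) * (-2 * arI F c χ t) = -(2 * arI F c χ t / (T - t)) := by ring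
  linarith

theorem hMVW (hWIN : StWIN) (hMVI : StMVI) (hPRJ : StPRJ) (hFVJ : StFVJ) (hMUJ : StMUJ)
    (hI4J : StI4J) (hEVC : StEVC) : StMVW := by
  intro N M _ _ _ _ _ _ _ _ _ T F c χ δ hD hA C α ts hC hα hts hrate
  have hsu := hD.su
  have hsj := hsu.toJ
  obtain ⟨s, _, hMU⟩ := hMUJ 2 N M (Ioo 0 T) F c χ hsj
  obtain ⟨hWE, hW⟩ := hWIN N M T F hsu.mcf
  obtain ⟨hcF, _, _, _⟩ := hI4J 2 N M (Ioo 0 T) F hsj.mcf
  have hpi := Real.pi_lt_d2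
  -- the size of `C s ^ α`
  obtain ⟨r₀, hr₀⟩ : ∃ r₀ : ℝ, r₀ = (1 / C) ^ (1 / α) := ⟨_, rfl⟩
  have hr₀p : 0 < r₀ := by rw [hr₀]; positivity
  have hr₀C : C * r₀ ^ α = 1 := by
    rw [hr₀, ← Real.rpow_mul (by positivity), one_div_mul_cancel hα.ne', Real.rpow_one]
    field_simp
  have hsmall : ∀ τ : ℝ, 0 < τ → τ ≤ r₀ → C * τ ^ α ≤ 1 := by
    intro τ hτ hτr
    rw [← hr₀C]
    exact mul_le_mul_of_nonneg_left (Real.rpow_le_rpow hτ.le hτr hα.le) hC.le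
  -- the norm of `F`
  have hRad : ∀ τ : ℝ, 0 < τ → 2 * Real.sqrt τ + C * τ ^ (α + 1 / 2)
      = Real.sqrt τ * (2 + C * τ ^ α) := by
    intro τ hτ
    rw [Real.rpow_add hτ, Real.sqrt_eq_rpow]
    ring
  have hint : ∀ t ∈ Ico ts T, C * (T - t) ^ α ≤ 1 →
      Integrable (fun q => uF T F q t) (muM 2 F c χ t) ∧
      ∫ q, uF T F q t ∂muM 2 F c χ t ≤ 70 * (C * (T - t) ^ α) := by
    intro t ht hρ1
    have htI : t ∈ Ioo 0 T := ⟨lt_of_lt_of_le hts.1 ht.1, ht.2⟩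
    have hτ : 0 < T - t := sub_pos.2 ht.2
    have hρ0 : 0 ≤ C * (T - t) ^ α := by positivity
    obtain ⟨he, hq⟩ := hrate t ht
    have hR : ∀ q, ‖F q t‖ ≤ Real.sqrt (T - t) * (2 + C * (T - t) ^ α) := by
      intro q
      rw [← hRad _ hτ]
      exact (hq q).2.2
    obtain ⟨u1, u2⟩ := int_u hPRJ hFVJ hMUJ hI4J T F c χ hsu t htI _ hR
    refine ⟨u1, u2.trans ?_⟩
    refine num_bd _ _ (eI F c χ t) _ _ hτ hρ0 hρ1 (hA t htI).1 (hA t htI).2 ?_ he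
    linarith [hD.gb t htI]
  refine ⟨45 * Real.exp 5 * (C * 2 ^ α), max ((T + ts) / 2) (T - r₀ / 2), by positivity,
    ⟨?_, ?_⟩, ?_⟩
  · exact le_max_of_le_left (by linarith [hts.2])
  · exact max_lt (by linarith [hts.2]) (by linarith)
  intro t₀ ht₀ p
  have ha1 : (T + ts) / 2 ≤ t₀ := (le_max_left _ _).trans ht₀.1
  have ha2 : T - r₀ / 2 ≤ t₀ := (le_max_right _ _).trans ht₀.1
  obtain ⟨τ₀, hτ₀⟩ : ∃ τ₀, τ₀ = T - t₀ := ⟨_, rfl⟩
  obtain ⟨t₁, ht₁⟩ : ∃ t₁, t₁ = t₀ - τ₀ := ⟨_, rfl⟩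
  have hτ₀p : 0 < τ₀ := by rw [hτ₀]; exact sub_pos.2 ht₀.2
  have hτ₁ : T - t₁ = 2 * τ₀ := by rw [ht₁]; linarith
  have ht₁s : ts ≤ t₁ := by rw [ht₁]; linarith
  obtain ⟨ρ, hρ⟩ : ∃ ρ, ρ = C * (2 * τ₀) ^ α := ⟨_, rfl⟩
  have hρ0 : 0 < ρ := by rw [hρ]; positivity
  have hρ1 : ρ ≤ 1 := by
    rw [hρ]
    exact hsmall _ (by positivity) (by linarith)
  obtain ⟨a₀, ha₀⟩ : ∃ a₀, a₀ = ρ / τ₀ := ⟨_, rfl⟩
  have ha₀p : 0 < a₀ := by rw [ha₀]; positivity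
  have hIcc : ∀ t ∈ Icc t₁ t₀, t ∈ Ico ts T ∧ t ∈ Ioo 0 T ∧ τ₀ ≤ T - t ∧ T - t ≤ 2 * τ₀ := by
    intro t ht
    have b1 : ts ≤ t := ht₁s.trans ht.1
    have b2 : t < T := lt_of_le_of_lt ht.2 ht₀.2
    refine ⟨⟨b1, b2⟩, ⟨lt_of_lt_of_le hts.1 b1, b2⟩, by linarith [ht.2], by linarith [ht.1]⟩
  obtain ⟨hwE, hw⟩ := hEVC N M (Ioo 0 T) F hsj.mcf (uF T F) (fun x => x) (fun _ => a₀) (fun _ => 0)
    hWE contDiff_id (fun t _ => hasDerivAt_const t a₀) continuousOn_const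
  have hw' : ∀ q, ∀ t ∈ Ioo 0 T, htF F (fun q t => uF T F q t + a₀) q t = htF F (uF T F) q t := by
    intro q t ht
    have := (hw q t ht).2
    simpa using this
  have hu0 : ∀ q t, 0 ≤ uF T F q t := fun q t => by unfold uF; positivity
  have hnn : ∀ q, ∀ t ∈ Icc t₁ t₀, 0 ≤ uF T F q t + a₀ := fun q t _ => by
    have := hu0 q t
    linarith
  have hineq : ∀ q, ∀ t ∈ Icc t₁ t₀, htF F (fun q t => uF T F q t + a₀) q t
      ≤ 5 / τ₀ * (uF T F q t + a₀) := by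
    intro q t ht
    obtain ⟨c1, c2, c3, c4⟩ := hIcc t ht
    rw [hw' q t c2]
    refine (hW q t c2).trans ?_
    obtain ⟨_, hq⟩ := hrate t c1
    obtain ⟨q1, q2, q3⟩ := hq q
    obtain ⟨τ, hτ⟩ : ∃ τ, τ = T - t := ⟨_, rfl⟩
    rw [← hτ] at q1 q2 q3 c3 c4 ⊢
    have hτp : 0 < τ := lt_of_lt_of_le hτ₀p c3
    have hρτ : C * τ ^ α ≤ ρ := by
      rw [hρ]
      exact mul_le_mul_of_nonneg_left (Real.rpow_le_rpow hτp.le c4 hα.le) hC.le
    have hρτ0 : 0 ≤ C * τ ^ α := by positivity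
    have d1 : YF F q t ≤ 2 / τ := by
      rw [le_div_iff₀ hτp]
      have := (abs_le.1 q2).2
      linarith
    have d2 : thF 2 F q t ≤ 1 / τ := by
      rw [le_div_iff₀ hτp]
      linarith
    have d3 : |YF F q t - 1 / τ| ≤ ρ / τ := by
      have : YF F q t - 1 / τ = (τ * YF F q t - 1) / τ := by field_simp
      rw [this, abs_div, abs_of_pos hτp]
      exact div_le_div_of_nonneg_right (q2.trans hρτ) hτp.le
    have d4 : ‖F q t‖ ^ 2 ≤ 9 * τ := by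
      have e1 : ‖F q t‖ ≤ Real.sqrt τ * 3 := by
        refine q3.trans ?_
        rw [hRad _ hτp]
        exact mul_le_mul_of_nonneg_left (by linarith) (Real.sqrt_nonneg _)
      have e2 := pow_le_pow_left₀ (norm_nonneg _) e1 2
      rw [mul_pow, Real.sq_sqrt hτp.le] at e2
      linarith
    have d5 : 1 / τ + ‖F q t‖ ^ 2 / (4 * τ ^ 2) ≤ 4 / τ := by
      have e1 : ‖F q t‖ ^ 2 / (4 * τ ^ 2) ≤ 9 * τ / (4 * τ ^ 2) :=
        div_le_div_of_nonneg_right d4 (by positivity)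
      have e2 : 9 * τ / (4 * τ ^ 2) = 9 / 4 * (1 / τ) := by field_simp
      have e3 : 4 / τ = 4 * (1 / τ) := by ring
      have e4 : 0 < 1 / τ := by positivity
      rw [e3]
      linarith
    have d6 : YF F q t + thF 2 F q t + 2 / τ ≤ 5 / τ₀ := by
      have e1 : 5 / τ ≤ 5 / τ₀ := div_le_div_of_nonneg_left (by norm_num) hτ₀p c3
      have e2 : 5 / τ = 2 / τ + 1 / τ + 2 / τ := by ring
      linarith
    have d7 : |YF F q t - 1 / τ| * (1 / τ + ‖F q t‖ ^ 2 / (4 * τ ^ 2)) ≤ 4 / τ₀ * a₀ := by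
      have e1 : |YF F q t - 1 / τ| * (1 / τ + ‖F q t‖ ^ 2 / (4 * τ ^ 2)) ≤ ρ / τ * (4 / τ) :=
        mul_le_mul d3 d5 (by positivity) (by positivity)
      have e2 : ρ / τ * (4 / τ) ≤ ρ / τ₀ * (4 / τ₀) :=
        mul_le_mul (div_le_div_of_nonneg_left hρ0.le hτ₀p c3)
          (div_le_div_of_nonneg_left (by norm_num) hτ₀p c3) (by positivity) (by positivity)
      rw [ha₀]
      linarith
    have d8 : (YF F q t + thF 2 F q t + 2 / τ) * uF T F q t ≤ 5 / τ₀ * uF T F q t :=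
      mul_le_mul_of_nonneg_right d6 (hu0 q t)
    have d9 : 4 / τ₀ * a₀ ≤ 5 / τ₀ * a₀ :=
      mul_le_mul_of_nonneg_right (div_le_div_of_nonneg_right (by norm_num) hτ₀p.le) ha₀p.le
    have d10 : 5 / τ₀ * (uF T F q t + a₀) = 5 / τ₀ * uF T F q t + 5 / τ₀ * a₀ := by ring
    linarith
  have ht10 : t₁ < t₀ := by rw [ht₁]; linarith
  have hmv := hMVI N M (Ioo 0 T) F c χ hsu (fun q t => uF T F q t + a₀) (5 / τ₀) t₁ t₀ hwE
    (by positivity) ht10 (fun t ht => (hIcc t ht).2.1) hnn hineq p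
  have h01 : t₀ - t₁ = τ₀ := by rw [ht₁]; ring
  rw [h01] at hmv
  have h5 : 5 / τ₀ * τ₀ = 5 := by field_simp
  rw [h5] at hmv
  -- the integral
  obtain ⟨c1, c2, _, _⟩ := hIcc t₁ ⟨le_rfl, ht10.le⟩
  obtain ⟨hfin, _, hMU'⟩ := hMU t₁ c2
  have hfm : IsFiniteMeasure (muM 2 F c χ t₁) := ⟨hfin⟩
  obtain ⟨v1, v2⟩ := hint t₁ c1 (by rw [hτ₁, ← hρ]; exact hρ1)
  rw [hτ₁, ← hρ] at v2
  have hcu : Continuous (fun q => uF T F q t₁) := (hWE.sm t₁ c2).continuous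
  have hcF1 : Continuous (fun q => F q t₁) := cstj_cont hcF c2
  have v3 : ∫ q, (uF T F q t₁ + a₀) * Real.exp (-(‖F q t₁ - F p t₀‖ ^ 2 / (8 * τ₀)))
      ∂muM 2 F c χ t₁ ≤ ∫ q, (uF T F q t₁ + a₀) ∂muM 2 F c χ t₁ := by
    refine integral_mono (hMU' _ ?_).1 (v1.add (integrable_const _)) fun q => ?_
    · exact (hcu.add continuous_const).mul
        (Real.continuous_exp.comp (((((hcF1.sub continuous_const).norm).pow 2).div_const _).neg))
    · have e1 : Real.exp (-(‖F q t₁ - F p t₀‖ ^ 2 / (8 * τ₀))) ≤ 1 := by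
        rw [Real.exp_le_one_iff, neg_nonpos]
        positivity
      have e2 : 0 ≤ uF T F q t₁ + a₀ := hnn q t₁ ⟨le_rfl, ht10.le⟩
      calc (uF T F q t₁ + a₀) * Real.exp (-(‖F q t₁ - F p t₀‖ ^ 2 / (8 * τ₀)))
          ≤ (uF T F q t₁ + a₀) * 1 := mul_le_mul_of_nonneg_left e1 e2
        _ = uF T F q t₁ + a₀ := mul_one _
  have v4 : ∫ q, (uF T F q t₁ + a₀) ∂muM 2 F c χ t₁ ≤ 180 * ρ := by
    rw [integral_add v1 (integrable_const _), integral_const, smul_eq_mul]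
    have e1 : (muM 2 F c χ t₁).real univ ≤ 52 * (2 * τ₀) := by
      have f1 := (hA t₁ c2).2
      rw [hτ₁] at f1
      have f2 : wI F c χ t₁ ≤ 52 := by
        have g1 := hD.gb t₁ c2
        have g2 := (hrate t₁ c1).1
        rw [hτ₁, ← hρ] at g2
        linarith
      have f3 : wI F c χ t₁ * (2 * τ₀) ≤ 52 * (2 * τ₀) :=
        mul_le_mul_of_nonneg_right f2 (by positivity)
      exact f1.trans f3
    have e2 : (muM 2 F c χ t₁).real univ * a₀ ≤ 52 * (2 * τ₀) * a₀ :=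
      mul_le_mul_of_nonneg_right e1 ha₀p.le
    have e3 : 52 * (2 * τ₀) * a₀ = 104 * ρ := by
      rw [ha₀]
      field_simp
      norm_num
    linarith
  have v5 : uF T F p t₀ + a₀ ≤ 1 / 4 * Real.exp 5 / τ₀ * (180 * ρ) :=
    hmv.trans (mul_le_mul_of_nonneg_left (v3.trans v4) (by positivity))
  have v6 : τ₀ * uF T F p t₀ ≤ 45 * Real.exp 5 * ρ := by
    have e1 : τ₀ * uF T F p t₀ ≤ τ₀ * (1 / 4 * Real.exp 5 / τ₀ * (180 * ρ)) :=
      mul_le_mul_of_nonneg_left (by linarith) hτ₀p.le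
    have e2 : τ₀ * (1 / 4 * Real.exp 5 / τ₀ * (180 * ρ)) = 45 * Real.exp 5 * ρ := by
      field_simp
      ring
    linarith
  rw [← hτ₀]
  have v7 : 45 * Real.exp 5 * ρ = 45 * Real.exp 5 * (C * 2 ^ α) * τ₀ ^ α := by
    rw [hρ, Real.mul_rpow (by norm_num) hτ₀p.le]
    ring
  linarith

end Helper38.MS
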